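import Mathlib
import Pool.Agent.Lib.helper22.Dpg

set_option autoImplicit false

namespace Pool.Agent.Results.MP_f79b02_co.Finite

open Pool.Agent.Lib.H22Dpg

theorem result (k : ℕ) (hk : 3 ≤ k) :
    ∃ (n : ℕ) (G : SimpleGraph (Fin n)), G.CliqueFree 3 ∧ ∃ t : ℕ, Wins k t (Fin n) G := by
  obtain ⟨n, G, h, t, ht⟩ := forest_wins k (by omega)
  exact ⟨n, G, h.cliqueFree le_rfl, t, ht⟩

end Pool.Agent.Results.MP_f79b02_co.Finite
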